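import Mathlib
import Pool.Agent.X217.Indep

/-!
# A maximal ideal without closed maximal eventually different family (MP_817dae_lc)
-/

namespace Pool.Agent.Results.MP_817dae_lc.NoClosedMED

open Filter Set Cardinal Pool.Agent.X217.Indep

/-- Ideals on `ω`: closed under subsets and finite unions, proper, containing the finite sets. -/
def IsIdeal (I : Set (Set ℕ)) : Prop :=
  (∀ A : Set ℕ, A.Finite → A ∈ I) ∧ Set.univ ∉ I ∧ (∀ A ∈ I, ∀ B, B ⊆ A → B ∈ I) ∧
    ∀ A ∈ I, ∀ B ∈ I, A ∪ B ∈ I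

/-- Maximal ideals: not contained in a strictly larger ideal. -/
def IsMaximalIdeal (I : Set (Set ℕ)) : Prop :=
  IsIdeal I ∧ ∀ J, IsIdeal J → I ⊆ J → J = I

/-- `I`-maximal eventually different families. -/
def IsMED (I : Set (Set ℕ)) (E : Set (ℕ → ℕ)) : Prop :=
  (∀ f ∈ E, ∀ g ∈ E, f ≠ g → {n | f n = g n} ∈ I) ∧
    ∀ h : ℕ → ℕ, ∃ f ∈ E, {n | f n = h n} ∉ I

/-- The filter `F` makes sure that `E` is not a maximal eventually different family. -/
def Kill (F : Filter ℕ) (E : Set (ℕ → ℕ)) : Prop :=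
  (∃ f ∈ E, ∃ g ∈ E, f ≠ g ∧ {n | f n = g n} ∈ F) ∨
    ∃ h : ℕ → ℕ, ∀ f ∈ E, {n | f n ≠ h n} ∈ F

variable {K : Type}

theorem step (I : K → Set ℕ) (T : Set K) (F : Filter ℕ) (hI : Ind I T F) (hT : T.Infinite)
    (E : Set (ℕ → ℕ)) : ∃ (F' : Filter ℕ) (D : Set K), F' ≤ F ∧ D.Countable ∧ Ind I (T \ D) F' ∧
      Kill F' E := by
  classical
  obtain ⟨G, hGF, hG, hmax⟩ := exists_max I T F hI
  by_cases h1 : ∃ f ∈ E, ∃ g ∈ E, f ≠ g ∧ {n | f n ≠ g n} ∉ G
  · obtain ⟨f, hf, g, hg, hne, hX⟩ := h1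
    obtain ⟨s, e, hs, hB⟩ := (hmax _).resolve_left hX
    refine ⟨G ⊓ 𝓟 (B I s e), s, inf_le_left.trans hGF, s.countable_toSet, hG.add s e hs,
      Or.inl ⟨f, hf, g, hg, hne, ?_⟩⟩
    rw [mem_inf_principal]
    filter_upwards [hB] with n hn hnB
    by_contra hcon
    exact hn hcon hnB
  · push Not at h1
    rcases E.finite_or_infinite with hfin | hinf
    · refine ⟨G, ∅, hGF, countable_empty, by rwa [diff_empty], Or.inr ?_⟩
      refine ⟨fun n => (hfin.toFinset.sup fun f => f n) + 1, fun f hf => ?_⟩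
      refine mem_of_superset univ_mem fun n _ => ?_
      have : f n ≤ hfin.toFinset.sup fun f => f n :=
        Finset.le_sup (f := fun f : ℕ → ℕ => f n) (hfin.mem_toFinset.2 hf)
      show f n ≠ (hfin.toFinset.sup fun f => f n) + 1
      omega
    · let fs : ℕ ↪ E := hinf.natEmbedding
      let ι : ℕ ↪ T := hT.natEmbedding
      let A : ℕ → Set ℕ := fun j => {n | n ∈ I (ι j) ∧ ∀ i < j, n ∉ I (ι i)}
      let F' : Filter ℕ := (atTop : Filter ℕ).bind fun j => G ⊓ 𝓟 (A j)
      have hF' : ∀ X : Set ℕ, X ∈ F' ↔ ∀ᶠ j in (atTop : Filter ℕ), X ∈ G ⊓ 𝓟 (A j) := by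
        intro X
        exact mem_bind'
      let D : Set K := range fun j => (ι j : K)
      refine ⟨F', D, ?_, countable_range _, ?_, Or.inr ?_⟩
      · intro X hX
        rw [hF']
        exact Eventually.of_forall fun j => mem_inf_of_left (hGF hX)
      · intro s' e' hs' hcon
        have h2 : (B I s' e')ᶜ ∈ F' := hcon
        rw [hF'] at h2
        obtain ⟨j, hj⟩ := h2.exists
        rw [mem_inf_principal] at hj
        let s : Finset K := (Finset.range (j + 1)).image fun i => (ι i : K)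
        have hss : ∀ ξ ∈ s, ξ ∉ s' := by
          intro ξ hξ hξ'
          obtain ⟨i, -, rfl⟩ := Finset.mem_image.1 hξ
          exact (hs' hξ').2 ⟨i, rfl⟩
        apply hG (s ∪ s') (fun ξ => if ξ ∈ s then decide (ξ = ι j) else e' ξ) (by
          intro ξ hξ
          rcases Finset.mem_union.1 (Finset.mem_coe.1 hξ) with h | h
          · obtain ⟨i, -, rfl⟩ := Finset.mem_image.1 h
            exact (ι i).2
          · exact (hs' h).1)
        filter_upwards [hj] with n hn hB
        have hnA : n ∈ A j := by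
          refine ⟨?_, fun i hi => ?_⟩
          · have hm : (ι j : K) ∈ s :=
              Finset.mem_image.2 ⟨j, Finset.mem_range.2 (Nat.lt_succ_self j), rfl⟩
            refine (hB (ι j) (Finset.mem_union_left _ hm)).2 ?_
            show (if (ι j : K) ∈ s then decide ((ι j : K) = ι j) else e' (ι j)) = true
            rw [if_pos hm]
            exact decide_eq_true rfl
          · have hm : (ι i : K) ∈ s :=
              Finset.mem_image.2 ⟨i, Finset.mem_range.2 (by omega), rfl⟩
            intro hni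
            have h3 := (hB (ι i) (Finset.mem_union_left _ hm)).1 hni
            have h4 : (if (ι i : K) ∈ s then decide ((ι i : K) = ι j) else e' (ι i)) = true := h3
            rw [if_pos hm] at h4
            have h5 : (ι i : K) = ι j := of_decide_eq_true h4
            have h6 : i = j := ι.injective (Subtype.ext h5)
            omega
        have hnB : n ∈ B I s' e' := B_mono Finset.subset_union_right
          (fun ξ hξ => if_neg fun h => hss ξ h hξ) hB
        exact hn hnA hnB
      · refine ⟨fun n => if h : ∃ i, n ∈ I (ι i) then (fs (Nat.find h) : ℕ → ℕ) n else 0,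
          fun f hf => ?_⟩
        rw [hF']
        have hev : ∀ᶠ j in (atTop : Filter ℕ), (fs j : ℕ → ℕ) ≠ f := by
          by_cases hex : ∃ j, (fs j : ℕ → ℕ) = f
          · obtain ⟨j0, hj0⟩ := hex
            filter_upwards [eventually_gt_atTop j0] with j hj hcon
            have : fs j = fs j0 := Subtype.ext (hcon.trans hj0.symm)
            have := fs.injective this
            omega
          · push Not at hex
            exact Eventually.of_forall hex
        filter_upwards [hev] with j hj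
        rw [mem_inf_principal]
        filter_upwards [h1 (fs j) (fs j).2 f hf hj] with n hn hnA
        have hex : ∃ i, n ∈ I (ι i) := ⟨j, hnA.1⟩
        have hfind : Nat.find hex = j := by
          apply le_antisymm
          · exact Nat.find_min' hex hnA.1
          · by_contra hlt
            push Not at hlt
            exact hnA.2 _ hlt (Nat.find_spec hex)
        show f n ≠ if h : ∃ i, n ∈ I (ι i) then (fs (Nat.find h) : ℕ → ℕ) n else 0
        rw [dif_pos hex, hfind]
        exact fun h => hn h.symm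

/-- The well-ordered set of type continuum. -/
abbrev Kc : Type := (𝔠 : Cardinal.{0}).ord.ToType

theorem mk_Kc : #Kc = 𝔠 := by rw [Cardinal.mk_toType, Cardinal.card_ord]

theorem main (E : Kc → Set (ℕ → ℕ)) : ∃ U : Ultrafilter ℕ, (U : Filter ℕ) ≤ cofinite ∧
    ∀ ξ, Kill U (E ξ) := by
  classical
  -- the independent family
  have hinj : Nonempty (Kc ↪ Set ℕ) := by
    rw [← Cardinal.le_def, mk_Kc, Cardinal.mk_set, Cardinal.mk_nat, Cardinal.two_power_aleph0]
  obtain ⟨A⟩ := hinj
  obtain ⟨I, hI⟩ := exists_indep (fun k => A k) A.injective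
  -- the recursion
  let H : (ξ : Kc) → ((η : Kc) → η < ξ → Filter ℕ × Set Kc) → Filter ℕ := fun ξ prev =>
    cofinite ⊓ ⨅ (η : Kc) (h : η < ξ), (prev η h).1
  obtain ⟨f, hf⟩ := exists_rec (κ := Kc) (S := Filter ℕ × Set Kc)
    (fun ξ prev s => s.1 ≤ H ξ prev ∧ s.2.Countable ∧
      Ind I ((⋃ (η : Kc) (h : η < ξ), (prev η h).2) ∪ s.2)ᶜ s.1 ∧ Kill s.1 (E ξ)) (by
    intro ξ f ih
    -- the previous filters form a chain
    have hchain : ∀ η < ξ, ∀ ζ < η, (f η).1 ≤ (f ζ).1 := by
      intro η hη ζ hζ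
      refine (ih η hη).1.trans (inf_le_right.trans ?_)
      exact iInf₂_le (f := fun (η' : Kc) (_ : η' < η) => (f η').1) ζ hζ
    have hcof : ∀ η < ξ, (f η).1 ≤ cofinite := fun η hη => (ih η hη).1.trans inf_le_left
    set R : Set Kc := ⋃ (η : Kc) (_ : η < ξ), (f η).2 with hR
    set G : Filter ℕ := cofinite ⊓ ⨅ (η : Kc) (_ : η < ξ), (f η).1 with hG
    -- independence modulo the infimum
    have hInd : Ind I Rᶜ G := by
      by_cases hne : ∃ η, η < ξ
      · have hdir : DirectedOn ((fun η : Kc => (f η).1) ⁻¹'o (· ≥ ·)) (Set.Iio ξ) := by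
          intro a ha b hb
          rcases lt_trichotomy a b with h | h | h
          · exact ⟨b, hb, hchain b hb a h, le_refl _⟩
          · subst h; exact ⟨a, ha, le_refl _, le_refl _⟩
          · exact ⟨a, ha, le_refl _, hchain a ha b h⟩
        have hG2 : G = ⨅ η ∈ Set.Iio ξ, (f η).1 := by
          rw [hG]
          apply inf_eq_right.2
          obtain ⟨η, hη⟩ := hne
          exact (iInf₂_le (f := fun (η' : Kc) (_ : η' ∈ Set.Iio ξ) => (f η').1) η hη).trans
            (hcof η hη)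
        intro s e hs hcon
        have h1 : (B I s e)ᶜ ∈ G := hcon
        rw [hG2, mem_biInf_of_directed hdir hne] at h1
        obtain ⟨η, hη, h2⟩ := h1
        refine (ih η hη).2.2.1 s e ?_ h2
        intro x hx hx'
        refine hs hx ?_
        rcases hx' with hx' | hx'
        · obtain ⟨ζ, hζ, hxζ⟩ := mem_iUnion₂.1 hx'
          exact mem_iUnion₂.2 ⟨ζ, hζ.trans hη, hxζ⟩
        · exact mem_iUnion₂.2 ⟨η, hη, hx'⟩
      · have hG2 : G = cofinite := by
          rw [hG]
          apply inf_eq_left.2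
          refine le_iInf₂ fun η hη => ?_
          exact absurd ⟨η, hη⟩ hne
        intro s e _
        rw [hG2]
        exact frequently_cofinite_iff_infinite.2 (hI s e)
    -- the remainder is infinite
    have hRc : #R < 𝔠 := by
      have h1 : #R ≤ #(Set.Iio ξ) * ℵ₀ := by
        have h2 : R = ⋃ η : Set.Iio ξ, (f η.1).2 := by
          rw [hR]
          ext x
          simp
        rw [h2]
        refine (Cardinal.mk_iUnion_le _).trans ?_
        refine mul_le_mul' (le_refl _) ?_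
        apply ciSup_le'
        intro η
        exact Cardinal.le_aleph0_iff_set_countable.2 (ih η.1 η.2).2.1
      refine lt_of_le_of_lt h1 (Cardinal.mul_lt_of_lt Cardinal.aleph0_le_continuum ?_
        Cardinal.aleph0_lt_continuum)
      have h3 := Cardinal.mk_Iio_lt (α := Kc) ξ (by simp)
      rwa [mk_Kc] at h3
    have hRinf : (Rᶜ).Infinite := by
      intro hfin
      have h1 : #(Rᶜ : Set Kc) < 𝔠 := lt_trans hfin.lt_aleph0 Cardinal.aleph0_lt_continuum
      have h2 := Cardinal.mk_sum_compl R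
      rw [mk_Kc] at h2
      have h3 := Cardinal.add_lt_of_lt Cardinal.aleph0_le_continuum hRc h1
      rw [h2] at h3
      exact lt_irrefl _ h3
    obtain ⟨F', D, hF'1, hD, hInd', hK⟩ := step I Rᶜ G hInd hRinf (E ξ)
    refine ⟨(F', D), hF'1, hD, ?_, hK⟩
    refine hInd'.mono ?_
    intro x hx
    exact ⟨fun h => hx (Or.inl h), fun h => hx (Or.inr h)⟩)
  have hchain : ∀ η ζ, ζ < η → (f η).1 ≤ (f ζ).1 := by
    intro η ζ hζ
    refine (hf η).1.trans (inf_le_right.trans ?_)
    exact iInf₂_le (f := fun (η' : Kc) (_ : η' < η) => (f η').1) ζ hζ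
  have hNe : NeBot (⨅ ξ, (f ξ).1) := by
    have : Nonempty Kc := by
      rw [← Cardinal.mk_ne_zero_iff, mk_Kc]
      exact Cardinal.continuum_ne_zero
    refine iInf_neBot_of_directed' ?_ fun ξ => (hf ξ).2.2.1.neBot
    intro a b
    rcases lt_trichotomy a b with h | h | h
    · exact ⟨b, hchain b a h, le_refl _⟩
    · subst h; exact ⟨a, le_refl _, le_refl _⟩
    · exact ⟨a, le_refl _, hchain a b h⟩
  have hU : ∀ ξ, (Ultrafilter.of (⨅ ξ, (f ξ).1) : Filter ℕ) ≤ (f ξ).1 := fun ξ =>
    (Ultrafilter.of_le _).trans (iInf_le _ ξ)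
  refine ⟨Ultrafilter.of (⨅ ξ, (f ξ).1), ?_, fun ξ => ?_⟩
  · obtain ⟨ξ⟩ : Nonempty Kc := by
      rw [← Cardinal.mk_ne_zero_iff, mk_Kc]
      exact Cardinal.continuum_ne_zero
    exact (hU ξ).trans ((hf ξ).1.trans inf_le_left)
  · rcases (hf ξ).2.2.2 with ⟨f', hf', g, hg, hne, hm⟩ | ⟨h, hh⟩
    · exact Or.inl ⟨f', hf', g, hg, hne, hU ξ hm⟩
    · exact Or.inr ⟨h, fun f' hf' => hU ξ (hh f' hf')⟩

theorem exists_enum : ∃ E : Kc → Set (ℕ → ℕ), ∀ S : Set (ℕ → ℕ),
    @MeasurableSet _ (borel (ℕ → ℕ)) S → ∃ ξ, E ξ = S := by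
  have h1 : #{S : Set (ℕ → ℕ) | @MeasurableSet _ (borel (ℕ → ℕ)) S} ≤ 𝔠 := by
    rw [(TopologicalSpace.isBasis_countableBasis (ℕ → ℕ)).borel_eq_generateFrom]
    refine MeasurableSpace.cardinal_measurableSet_le_continuum ?_
    exact ((TopologicalSpace.countable_countableBasis (ℕ → ℕ)).le_aleph0).trans
      Cardinal.aleph0_le_continuum
  rw [← mk_Kc] at h1
  obtain ⟨e⟩ := (Cardinal.le_def _ _).1 h1
  have hne : Nonempty {S : Set (ℕ → ℕ) | @MeasurableSet _ (borel (ℕ → ℕ)) S} :=
    ⟨⟨∅, @MeasurableSet.empty _ (borel (ℕ → ℕ))⟩⟩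
  refine ⟨fun ξ => (Function.invFun e ξ).1, fun S hS => ⟨e ⟨S, hS⟩, ?_⟩⟩
  show (Function.invFun e (e ⟨S, hS⟩)).1 = S
  rw [Function.leftInverse_invFun e.injective]

/-- There is a maximal ideal `I` on `ω` such that no closed subset of `ω^ω`, and in fact no Borel
subset of `ω^ω`, is an `I`-maximal eventually different family. -/
theorem result : ∃ I : Set (Set ℕ), IsMaximalIdeal I ∧
    (∀ E : Set (ℕ → ℕ), IsClosed E → ¬ IsMED I E) ∧
    ∀ E : Set (ℕ → ℕ), @MeasurableSet _ (borel (ℕ → ℕ)) E → ¬ IsMED I E := by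
  obtain ⟨E, hE⟩ := exists_enum
  obtain ⟨U, hU, hKill⟩ := main E
  have hborel : ∀ S : Set (ℕ → ℕ), @MeasurableSet _ (borel (ℕ → ℕ)) S →
      ¬ IsMED {A : Set ℕ | Aᶜ ∈ U} S := by
    rintro S hS ⟨h1, h2⟩
    obtain ⟨ξ, rfl⟩ := hE S hS
    rcases hKill ξ with ⟨f, hf, g, hg, hne, hm⟩ | ⟨h, hh⟩
    · have h3 : {n | f n = g n}ᶜ ∈ U := h1 f hf g hg hne
      have h4 := U.nonempty_of_mem (inter_mem hm h3)
      rw [inter_compl_self] at h4
      exact Set.not_nonempty_empty h4
    · obtain ⟨f, hf, hf2⟩ := h2 h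
      apply hf2
      have h3 : {n | f n ≠ h n} ∈ U := hh f hf
      exact h3
  refine ⟨{A : Set ℕ | Aᶜ ∈ U}, ⟨⟨?_, ?_, ?_, ?_⟩, ?_⟩, fun S hS => ?_, hborel⟩
  · intro A hA
    exact hU hA.compl_mem_cofinite
  · intro h
    have h1 : (Set.univ : Set ℕ)ᶜ ∈ U := h
    rw [compl_univ] at h1
    exact U.empty_notMem h1
  · intro A hA B hB
    exact mem_of_superset (show Aᶜ ∈ U from hA) (compl_subset_compl.2 hB)
  · intro A hA B hB
    show (A ∪ B)ᶜ ∈ U
    rw [compl_union]
    exact inter_mem hA hB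
  · intro J hJ hsub
    refine Subset.antisymm ?_ hsub
    intro A hA
    by_contra hcon
    have h1 : Aᶜ ∉ U := hcon
    have h2 : A ∈ U := by
      have := (Ultrafilter.compl_mem_iff_notMem).2 h1
      rwa [compl_compl] at this
    have h3 : Aᶜ ∈ J := hsub (show Aᶜᶜ ∈ U by rwa [compl_compl])
    have h4 := hJ.2.2.2 A hA _ h3
    rw [union_compl_self] at h4
    exact hJ.2.1 h4
  · refine hborel S ?_
    have h1 : @MeasurableSet _ (borel (ℕ → ℕ)) Sᶜ := MeasurableSpace.measurableSet_generateFrom hS.isOpen_compl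
    have h2 := @MeasurableSet.compl _ _ (borel (ℕ → ℕ)) h1
    rwa [compl_compl] at h2

end Pool.Agent.Results.MP_817dae_lc.NoClosedMED
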